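import Pool.Agent.K7.H55.PL.All

/-!
# `n = 7588` is a counterexample

For every `k` with `0 < k < 7588` the number `N_k = k (k + 1) ^ φ(7588 - k) + 1` is composite. So it is not true that for
every integer `n > 1` there is an integer `0 < k < n` such that `k (k + 1) ^ φ(n - k) + 1` is prime.

For most `k` the certificate is a proper divisor of `N_k`; for the other `k` (numbers `N_k` of up to 65 000 binary digits
without small factor) the kernel computes that `2 ^ (N_k - 1)` is not congruent to `1` modulo `N_k`, which contradicts
Fermat's little theorem if `N_k` is prime. The values of Euler's function are computed by trial division.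
-/

set_option autoImplicit false

namespace Pool.Agent.Results.MP_18f1ec_nt.CounterexampleAt7588

/-- The negative answer to the question: the numbers `k (k + 1) ^ φ(7588 - k) + 1`, `0 < k < 7588`, are all composite. -/
theorem result :
    (∀ k : ℕ, 0 < k → k < 7588 → ¬ (k * (k + 1) ^ Nat.totient (7588 - k) + 1).Prime) ∧
    ¬ ∀ n : ℕ, 1 < n → ∃ k : ℕ, 0 < k ∧ k < n ∧ (k * (k + 1) ^ Nat.totient (n - k) + 1).Prime := by
  have h : ∀ k : ℕ, 0 < k → k < 7588 → ¬ (k * (k + 1) ^ Nat.totient (7588 - k) + 1).Prime :=
    fun k h0 h1 => Pool.Agent.K7.H55.PL.good k h0 h1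
  refine ⟨h, fun H => ?_⟩
  obtain ⟨k, h0, h1, h2⟩ := H 7588 (by norm_num)
  exact h k h0 h1 h2

end Pool.Agent.Results.MP_18f1ec_nt.CounterexampleAt7588
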